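import Mathlib
import Pool.Agent.P.MP_de14bd_lc.Lower
import Pool.Agent.P.MP_de14bd_lc.Upper

/-!
There is a setting of pairwise distinct speeds in which every overtaking-free patrol of the
circle, whichever set `S` of agents it uses, has idle time bounded away from the optimum.
-/

namespace Pool.Agent.Results.MP_de14bd_lc.OvertakingNeeded

open scoped NNReal ENNReal

/-- A traversal algorithm for the speed bounds `v` on the circle `ℝ / ℤ`. -/
def IsTraversal {k : ℕ} (v : Fin k → ℝ) (a : Fin k → ℝ≥0 → UnitAddCircle) : Prop :=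
  (∀ i, Continuous (a i)) ∧
    ∀ i, ∀ t ε : ℝ≥0, 0 < ε → (ε : ℝ) * v i < 1 / 2 → dist (a i t) (a i (t + ε)) ≤ v i * ε

/-- Idle time at the point `x`, counting only visits of agents in `S`. -/
noncomputable def idleAt {k : ℕ} (S : Finset (Fin k)) (a : Fin k → ℝ≥0 → UnitAddCircle)
    (x : UnitAddCircle) : ℝ≥0∞ :=
  ⨅ (T : ℝ≥0) (_ : 0 < T ∧ ∀ K : ℝ≥0, ∃ i ∈ S, ∃ t ∈ Set.Icc K (K + T), a i t = x), (T : ℝ≥0∞)

/-- Idle time of the algorithm, counting only visits of agents in `S`. -/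
noncomputable def idle {k : ℕ} (S : Finset (Fin k)) (a : Fin k → ℝ≥0 → UnitAddCircle) : ℝ≥0∞ :=
  ⨆ x, idleAt S a x

/-- No two agents of `S` overtake each other. -/
def OvertakingFree {k : ℕ} (S : Finset (Fin k)) (a : Fin k → ℝ≥0 → UnitAddCircle) : Prop :=
  ∀ i ∈ S, ∀ j ∈ S, i ≠ j → ∃ f g : ℝ≥0 → ℝ, Continuous f ∧ Continuous g ∧
    (∀ t, ((f t : ℝ) : UnitAddCircle) = a i t) ∧ (∀ t, ((g t : ℝ) : UnitAddCircle) = a j t) ∧
    ∀ t, f t ≤ g t ∧ g t ≤ f t + 1

/-- Optimal idle time over all traversal algorithms. -/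
noncomputable def Iopt {k : ℕ} (v : Fin k → ℝ) : ℝ≥0∞ :=
  ⨅ (a : Fin k → ℝ≥0 → UnitAddCircle) (_ : IsTraversal v a), idle Finset.univ a

/-- Optimal idle time when only the agents of `S` are used and they never overtake each other. -/
noncomputable def Inf {k : ℕ} (v : Fin k → ℝ) (S : Finset (Fin k)) : ℝ≥0∞ :=
  ⨅ (a : Fin k → ℝ≥0 → UnitAddCircle) (_ : IsTraversal v a ∧ OvertakingFree S a), idle S a

open Pool.Agent.P.MP_de14bd_lc in
theorem result : ∃ (k : ℕ) (v : Fin k → ℝ), 2 ≤ k ∧ StrictAnti v ∧ (∀ i, 0 < v i) ∧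
    ∀ S : Finset (Fin k), Iopt v < Inf v S := by
  obtain ⟨k, hk, hb⟩ := exists_long
  set L := base k - 3 with hL
  have hL0 : 0 < L := by linarith
  have hL1 : 0 < L - 1 / 4 := by linarith
  have hk0 : (0 : ℝ) < k := by exact_mod_cast (by omega : 0 < k)
  -- a strictly decreasing perturbation of the speeds
  let e : Fin k → ℝ := fun i => 1 / (32 * k * (((i : ℕ) : ℝ) + 1))
  have he0 : ∀ i, 0 < e i := fun i => by
    have : (0 : ℝ) ≤ ((i : ℕ) : ℝ) := Nat.cast_nonneg _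
    simp only [e]
    positivity
  have he1 : ∀ i, e i ≤ 1 / (32 * k) := fun i => by
    have : (0 : ℝ) ≤ ((i : ℕ) : ℝ) := Nat.cast_nonneg _
    simp only [e]
    apply one_div_le_one_div_of_le (by positivity)
    nlinarith
  have he2 : ∀ i j : Fin k, i < j → e j < e i := fun i j hij => by
    have h0 : (0 : ℝ) ≤ ((i : ℕ) : ℝ) := Nat.cast_nonneg _
    have h1 : ((i : ℕ) : ℝ) < ((j : ℕ) : ℝ) := by exact_mod_cast hij
    simp only [e]
    apply one_div_lt_one_div_of_lt (by positivity)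
    nlinarith
  let u : Fin k → ℝ := fun i => w i + e i
  have hu : ∀ i, u i = w i + e i := fun _ => rfl
  have hv : ∀ i : Fin k, 0 < u i / L := fun i =>
    div_pos (add_pos (w_pos _) (he0 i)) hL0
  refine ⟨k, fun i => u i / L, by omega, fun i j hij => ?_, hv, fun S => ?_⟩
  · have h1 : w j ≤ w i := w_anti (by exact_mod_cast hij.le)
    have h2 := he2 i j hij
    exact div_lt_div_of_pos_right (by rw [hu, hu]; linarith) hL0
  have hopt : Iopt (fun i : Fin k => u i / L) ≤ ((4 : ℝ≥0) : ℝ≥0∞) := by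
    obtain ⟨a, h1, h2, h3⟩ := circle_patrol k hk hb
    have h4 : ∀ i : Fin k, ∀ t ε : ℝ≥0, dist (a i t) (a i (t + ε)) ≤ u i / L * ε := by
      intro i t ε
      refine (h2 i t ε).trans (mul_le_mul_of_nonneg_right ?_ ε.coe_nonneg)
      exact div_le_div_of_nonneg_right (by rw [hu]; linarith [he0 i]) hL0.le
    refine iInf₂_le_of_le a ⟨h1, fun i t ε _ _ => h4 i t ε⟩ (iSup_le fun x => ?_)
    refine iInf₂_le_of_le 4 ⟨by norm_num, fun K => ?_⟩ le_rfl
    obtain ⟨i, t, ht, hx⟩ := h3 x K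
    exact ⟨i, Finset.mem_univ _, t, ht, hx⟩
  let T : ℝ≥0 := ⟨4 * L / (L - 1 / 4), by positivity⟩
  have hTv : (T : ℝ) = 4 * L / (L - 1 / 4) := rfl
  have h4T : (4 : ℝ≥0) < T := by
    rw [← NNReal.coe_lt_coe, hTv, lt_div_iff₀ hL1]
    push_cast
    linarith
  refine hopt.trans_lt ((ENNReal.coe_lt_coe.mpr h4T).trans_le ?_)
  refine le_iInf₂ fun a ha => ?_
  by_contra hlt
  push Not at hlt
  have hcover : ∀ x : UnitAddCircle, ∀ K : ℝ≥0,
      ∃ i ∈ S, ∃ t ∈ Set.Icc K (K + T), a i t = x := by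
    intro x K
    have h1 : idleAt S a x < T := (le_iSup (idleAt S a) x).trans_lt hlt
    unfold idleAt at h1
    simp only [iInf_lt_iff, ENNReal.coe_lt_coe] at h1
    obtain ⟨T', ⟨-, h2⟩, h3⟩ := h1
    obtain ⟨i, hi, t, ht, hx⟩ := h2 K
    exact ⟨i, hi, t, ⟨ht.1, ht.2.trans (by gcongr)⟩, hx⟩
  have hS : S.Nonempty := by
    obtain ⟨i, hi, -⟩ := hcover 0 0
    exact ⟨i, hi⟩
  obtain ⟨s, hs, hbound⟩ := subset_bound k hk hb S hS
  have hcard : (S.card : ℝ) ≤ k := by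
    have := S.card_le_univ
    rw [Fintype.card_fin] at this
    exact_mod_cast this
  have hc : (S.card : ℝ) * (1 / (32 * k)) ≤ 1 / 32 := by
    rw [mul_one_div, div_le_div_iff₀ (by positivity) (by norm_num)]
    linarith
  have hsum : ∑ j ∈ S, u j ≤ ∑ j ∈ S, w j + 1 / 32 := by
    have h1 : ∑ j ∈ S, e j ≤ ∑ _j ∈ S, (1 / (32 * k) : ℝ) := Finset.sum_le_sum fun j _ => he1 j
    rw [Finset.sum_const, nsmul_eq_mul] at h1
    simp only [hu, Finset.sum_add_distrib]
    linarith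
  have hone : (S.card : ℝ) * u s ≤ S.card * w s + 1 / 32 := by
    have h1 : (S.card : ℝ) * e s ≤ S.card * (1 / (32 * k)) :=
      mul_le_mul_of_nonneg_left (he1 s) (Nat.cast_nonneg _)
    rw [hu, mul_add]
    linarith
  have key := circle_bound S (fun i : Fin k => u i / L) a s T (lt_trans (by norm_num) h4T) hs hv
    ha.1.1 ha.1.2 ha.2 hcover
  rw [← Finset.sum_div, ← mul_div_assoc, ← add_div, hTv] at key
  have e' : 4 * L / (L - 1 / 4) * ((∑ j ∈ S, u j + S.card * u s) / L) / 2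
      = 2 * (∑ j ∈ S, u j + S.card * u s) / (L - 1 / 4) := by
    field_simp
    ring
  rw [e', le_div_iff₀ hL1] at key
  linarith

end Pool.Agent.Results.MP_de14bd_lc.OvertakingNeeded
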